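import Pool.Agent.Lib.P42fc32.Core

/-!
# The three types of colourings of the 7-vertex graph, all impossible
-/

set_option autoImplicit false

namespace Pool.Agent.Lib.P42fc32

variable {G : Type*} [Group G] {S : Set G}
  {a2 a3 b2 b3 p q w e22 e23 e32 e33 p2 p3 q2 q3 pw qw : G}

/-- Both `K_{2,3}` consist of monochromatic 2-paths. -/
theorem caseA (hS : Ind S) {a b c : G} (h : Cfg S a2 a3 b2 b3 p q w a a a a b b c c pw qw) :
    False := by
  obtain ⟨n1, n2, n3, n4, n5, n6, n7⟩ := h.nab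
  obtain ⟨m1, m2, m3, m4⟩ := h.nw
  obtain ⟨ha, -, -, -, hb, -, hc, -, hpw, hqw⟩ := h.mem
  have hab : b ≠ a := by
    rintro rfl
    exact three h.r22.symm h.r32.symm h.rp2.symm n1 n3 n4
  have hac : c ≠ a := by
    rintro rfl
    exact three h.r22 h.r23 h.rq2.symm n2 n5 n6
  -- the four-cycle
  obtain ⟨t, ht, ht1, ht2⟩ := turn h.r22 h.r32.symm n1
  obtain ⟨t', ht', ht1', ht2'⟩ := turn h.r23 h.r33.symm n1
  have htt : t' = t⁻¹ := by
    rcases Pm.cases ht ht' with e | e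
    · exact absurd (by rw [ht1, ht1', e]) n2
    · exact e
  subst htt
  have h4 : t * t = t⁻¹ * t⁻¹ := by
    have : a2 * (t * t) = a2 * (t⁻¹ * t⁻¹) := by
      rw [← mul_assoc, ← ht1, ← ht2, ht2', ht1', mul_assoc]
    exact mul_left_cancel this
  obtain ⟨r, hr, hr1, hr2⟩ := turn h.rp2.symm h.rp3 n2
  obtain ⟨s, hs, hs1, hs2⟩ := turn h.rq2.symm h.rq3 n1
  have hrr : r * r = t * t := by
    have : b2 * (r * r) = b2 * (t⁻¹ * t⁻¹) := by
      rw [← mul_assoc, ← hr1, ← hr2, ht1', ht1]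
      group
    rw [mul_left_cancel this, ← h4]
  have hss : s * s = t * t := by
    have : a2 * (s * s) = a2 * (t * t) := by
      rw [← mul_assoc, ← hs1, ← hs2, ht2, ht1, mul_assoc]
    exact mul_left_cancel this
  -- the five-cycle w p b2 a2 q
  have c1 := five hS ha hc hqw hpw hb h.r22.symm h.rq2.symm h.rqw h.rpw.symm h.rp2
  have c2 := five hS hb ha hc hqw hpw h.rp2 h.r22.symm h.rq2.symm h.rqw h.rpw.symm
  have c3 := five hS hc hqw hpw hb ha h.rq2.symm h.rqw h.rpw.symm h.rp2 h.r22.symm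
  have c4 := five hS hpw hb ha hc hqw h.rpw.symm h.rp2 h.r22.symm h.rq2.symm h.rqw
  have c5 := five hS hqw hpw hb ha hc h.rqw h.rpw.symm h.rp2 h.r22.symm h.rq2.symm
  have key : c = b ∧ ((pw = a ∧ qw = a) ∨ (pw = a ∧ qw = b) ∨ (pw = b ∧ qw = a)) := by
    grind
  obtain ⟨rfl, ⟨rfl, rfl⟩ | ⟨rfl, rfl⟩ | ⟨rfl, rfl⟩⟩ := key
  · -- both edges at `w` have the colour `a`
    obtain ⟨α, hα, hα1, hα2⟩ := turn h.rpw h.rqw.symm n7
    have hαα : α * α = t * t := by
      rcases Pm.cases ht hα with e | e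
      · rw [e]
      · rw [e, ← h4]
    have h1 : a2 * s = a2 * (t * r * (s * s)) := by
      rw [← hs1, hα2, hα1, hr1, ht1, hss, ← hαα]
      group
    have h2 := mul_left_cancel h1
    have h3 : t = (r * s)⁻¹ := by
      have : s = t * (r * s) * s := by
        rw [← mul_assoc, mul_assoc (t * r)]
        exact h2
      have h5 : t * (r * s) = 1 := by
        have h6 : 1 * s = t * (r * s) * s := by rw [one_mul]; exact this
        exact (mul_right_cancel h6).symm
      exact eq_inv_of_mul_eq_one_left h5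
    refine hS.pm ha ht ?_
    rw [h3]
    exact Subgroup.inv_mem _ (Subgroup.mul_mem _ (hr.mem hb hab) (hs.mem hb hab))
  · -- `pw = a`, `qw = b`
    obtain ⟨α, hα, hα1⟩ := h.rpw.pm
    obtain ⟨s', hs', hs1', hs2'⟩ := turn h.rq2.symm h.rqw m1
    have e : s' = s := by
      have : a2 * s' = a2 * s := by rw [← hs1', ← hs1]
      exact mul_left_cancel this
    subst e
    have h1 : a2 * (t * t) = a2 * (t * r * α) := by
      rw [← hss, ← mul_assoc, ← hs1, ← hs2', hα1, hr1, ht1]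
      group
    have h2 := mul_left_cancel h1
    have h3 : r = t * α⁻¹ := by
      rw [mul_assoc] at h2
      have h5 := mul_left_cancel h2
      rw [h5]
      group
    refine hS.pm hb hr ?_
    rw [h3]
    exact Subgroup.mul_mem _ (ht.mem ha hab.symm) (Subgroup.inv_mem _ (hα.mem ha hab.symm))
  · -- `pw = b`, `qw = a`
    obtain ⟨α, hα, hα1⟩ := h.rqw.pm
    obtain ⟨r', hr', hr1', hr2'⟩ := turn h.rp2.symm h.rpw m3
    have e : r' = r := by
      have : b2 * r' = b2 * r := by rw [← hr1', ← hr1]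
      exact mul_left_cancel this
    subst e
    have h1 : a2 * (t * (t * t)) = a2 * (s * α) := by
      calc a2 * (t * (t * t)) = a2 * t * r' * r' := by rw [← hrr]; group
        _ = w := by rw [← ht1, ← hr1, ← hr2']
        _ = a2 * (s * α) := by rw [hα1, hs1, mul_assoc]
    have h2 := mul_left_cancel h1
    have h3 : s = t * (t * t) * α⁻¹ := by
      rw [h2]
      group
    refine hS.pm hb hs ?_
    rw [h3]
    exact Subgroup.mul_mem _ (Subgroup.mul_mem _ (ht.mem ha hab.symm) (Subgroup.mul_mem _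
      (ht.mem ha hab.symm) (ht.mem ha hab.symm))) (Subgroup.inv_mem _ (hα.mem ha hab.symm))

/-- One `K_{2,3}` monochromatic, the other not, first subcase. -/
theorem caseB' (hS : Ind S) {a b : G} (h : Cfg S a2 a3 b2 b3 p q w a a b b a a b a pw qw)
    (hab : a ≠ b) : False := by
  obtain ⟨n1, n2, n3, n4, n5, n6, n7⟩ := h.nab
  obtain ⟨m1, m2, m3, m4⟩ := h.nw
  obtain ⟨k1, k2, k3, k4, k5, k6⟩ := h.nadj
  obtain ⟨ha, -, hb, -, -, -, -, -, hpw, hqw⟩ := h.mem
  have hpa : pw ≠ a := by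
    rintro rfl
    exact three h.rp2 h.rp3 h.rpw n2 m3 m4
  -- the five-cycle w p b2 a2 q, colours pw a a b qw
  have c1 := five hS hb hqw hpw ha ha h.rq2.symm h.rqw h.rpw.symm h.rp2 h.r22.symm
  have c4 := five hS hpw ha ha hb hqw h.rpw.symm h.rp2 h.r22.symm h.rq2.symm h.rqw
  have c5 := five hS hqw hpw ha ha hb h.rqw h.rpw.symm h.rp2 h.r22.symm h.rq2.symm
  have key : pw = b ∧ (qw = a ∨ qw = b) := by grind
  obtain ⟨t, ht, ht1, ht2⟩ := turn h.r22.symm h.r23 n2
  obtain ⟨t', ht', ht1', ht2'⟩ := turn h.rp2.symm h.rp3 n2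
  have htt : t' = t⁻¹ := by
    rcases Pm.cases ht ht' with e | e
    · exact absurd (by rw [ht1, ht1', e]) n3
    · exact e
  subst htt
  obtain ⟨r, hr, hr1, hr2⟩ := turn h.r32.symm h.r33 n2
  have h4 : t * t = t⁻¹ * t⁻¹ := by
    have : b2 * (t * t) = b2 * (t⁻¹ * t⁻¹) := by
      rw [← mul_assoc, ← ht1, ← ht2, ht2', ht1', mul_assoc]
    exact mul_left_cancel this
  have hrr : r * r = t * t := by
    have : b2 * (r * r) = b2 * (t * t) := by
      rw [← mul_assoc, ← hr1, ← hr2, ht2, ht1, mul_assoc]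
    exact mul_left_cancel this
  have hp : p = a2 * (t * t) := by
    rw [h4, ht1, ht1']
    group
  obtain ⟨rfl, hq⟩ := key
  obtain ⟨β, hβ, hβ1⟩ := h.rq2.symm.pm
  obtain ⟨γ, hγ, hγ1⟩ := h.rpw.pm
  have hγγ : γ * γ = t * t := by
    rcases Pm.cases hr hγ with e | e
    · rw [e, hrr]
    · rw [e, ← mul_inv_rev, hrr, mul_inv_rev, ← h4]
  have hw : w = a2 * γ⁻¹ := by
    have h5 : γ * γ * γ = γ⁻¹ := by
      have h6 : γ * γ = γ⁻¹ * γ⁻¹ := by
        rw [← mul_inv_rev, hγγ, mul_inv_rev, ← h4]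
      rw [h6]
      group
    rw [hγ1, hp, ← hγγ, mul_assoc, h5]
  have hβγ : β = γ := by
    rcases Pm.cases hγ hβ with e | e
    · exact e
    · exact absurd (by rw [hβ1, hw, e]) k5
  subst hβγ
  rcases hq with rfl | rfl
  · obtain ⟨δ, hδ, hδ1⟩ := h.rqw.pm
    have h5 : a2 * β⁻¹ = a2 * (β * δ) := by
      rw [← hw, hδ1, hβ1, mul_assoc]
    have h6 := mul_left_cancel h5
    have h7 : δ = (β * β)⁻¹ := by
      have : δ = β⁻¹ * (β * δ) := by group
      rw [this, ← h6]
      group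
    refine hS.pm ha hδ ?_
    rw [h7]
    exact Subgroup.inv_mem _ (Subgroup.mul_mem _ (hβ.mem hb hab.symm) (hβ.mem hb hab.symm))
  · obtain ⟨s, hs, hs1, hs2⟩ := turn h.rq2.symm h.rqw m1
    have e : s = β := by
      have : a2 * s = a2 * β := by rw [← hs1, ← hβ1]
      exact mul_left_cancel this
    subst e
    have h5 : a2 * s⁻¹ = a2 * (s * s) := by
      rw [← hw, hs2, hs1, mul_assoc]
    have h6 := mul_left_cancel h5
    have h7 : s * s = s⁻¹ * s⁻¹ := by
      rw [← mul_inv_rev, hγγ, mul_inv_rev, ← h4]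
    have h8 : s = 1 := by
      rw [h7] at h6
      have : s⁻¹ * 1 = s⁻¹ * s⁻¹ := by rw [mul_one]; exact h6
      have := mul_left_cancel this
      exact inv_eq_one.1 this.symm
    exact k1 (by rw [hs1, h8, mul_one])

/-- One `K_{2,3}` monochromatic, the other not. -/
theorem caseB (hS : Ind S) {a b z : G} (h : Cfg S a2 a3 b2 b3 p q w a a b b z z b a pw qw)
    (hab : a ≠ b) : False := by
  obtain ⟨ha, -, hb, -, hz, -, -, -, hpw, hqw⟩ := h.mem
  -- the five-cycle w p b2 a2 q, colours pw z a b qw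
  have c1 := five hS hb hqw hpw hz ha h.rq2.symm h.rqw h.rpw.symm h.rp2 h.r22.symm
  have c2 := five hS hz ha hb hqw hpw h.rp2 h.r22.symm h.rq2.symm h.rqw h.rpw.symm
  have c3 := five hS ha hb hqw hpw hz h.r22.symm h.rq2.symm h.rqw h.rpw.symm h.rp2
  have key : z = a ∨ z = b := by grind
  rcases key with rfl | rfl
  · exact caseB' hS h hab
  · exact caseB' hS h.swapA hab.symm

/-- Both `K_{2,3}` are not monochromatic, first subcase. -/
theorem caseC' (hS : Ind S) {a b : G} (h : Cfg S a2 a3 b2 b3 p q w a b b a a b a b pw qw)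
    (hab : a ≠ b) : False := by
  obtain ⟨n1, n2, n3, n4, n5, n6, n7⟩ := h.nab
  obtain ⟨m1, m2, m3, m4⟩ := h.nw
  obtain ⟨ha, hb, -, -, -, -, -, -, hpw, hqw⟩ := h.mem
  -- the five-cycle w p b2 a2 q, colours pw a a a qw
  have c4 := five hS hpw ha ha ha hqw h.rpw.symm h.rp2 h.r22.symm h.rq2.symm h.rqw
  have c5 := five hS hqw hpw ha ha ha h.rqw h.rpw.symm h.rp2 h.r22.symm h.rq2.symm
  -- the five-cycle w p b2 a3 q, colours pw a b b qw
  have d1 := five hS ha hb hb hqw hpw h.rp2 h.r32.symm h.rq3.symm h.rqw h.rpw.symm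
  have key : pw = a ∧ qw = a := by grind
  obtain ⟨rfl, rfl⟩ := key
  obtain ⟨t, ht, ht1, ht2⟩ := turn h.rp2 h.r22.symm n3.symm
  obtain ⟨t', ht', ht1', ht2'⟩ := turn h.r22.symm h.rq2.symm n5
  have e : t' = t := by
    have : b2 * t' = b2 * t := by rw [← ht1', ← ht2]
    exact mul_left_cancel this
  subst e
  obtain ⟨s, hs, hs1, hs2⟩ := turn h.rq2.symm h.rqw m1
  have e : s = t' := by
    have : a2 * s = a2 * t' := by rw [← hs1, ← ht2']
    exact mul_left_cancel this
  subst e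
  obtain ⟨u, hu, hu1, hu2⟩ := turn h.rpw.symm h.rp2 m3.symm
  have e : u = s := by
    have : p * u = p * s := by rw [← hu2, ← ht1]
    exact mul_left_cancel this
  subst e
  have h5 : u * u * u * u * u = 1 := by
    have : w * (u * u * u * u * u) = w * 1 := by
      calc w * (u * u * u * u * u) = w * u * u * u * u * u := by group
        _ = w := by rw [← hu1, ← ht1, ← ht2, ← hs1, ← hs2]
        _ = w * 1 := (mul_one w).symm
    exact mul_left_cancel this
  obtain ⟨r, hr, hr1, hr2⟩ := turn h.r23 h.rp3.symm n3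
  have h6 : u * u * (r * r) = 1 := by
    have : p * (u * u * (r * r)) = p * 1 := by
      calc p * (u * u * (r * r)) = p * u * u * r * r := by group
        _ = p := by rw [← ht1, ← ht2, ← hr1, ← hr2]
        _ = p * 1 := (mul_one p).symm
    exact mul_left_cancel this
  have h7 : r * r = (u * u)⁻¹ := eq_inv_of_mul_eq_one_right h6
  have h8 : u = (r * r * (r * r) * (r * r))⁻¹ := by
    rw [h7]
    calc u = u * (u * u * u * u * u) := by rw [h5, mul_one]
      _ = ((u * u)⁻¹ * (u * u)⁻¹ * (u * u)⁻¹)⁻¹ := by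
        simp only [mul_inv_rev, inv_inv, mul_assoc]
  refine hS.pm ha ht ?_
  rw [h8]
  have hm := hr.mem hb hab.symm
  exact Subgroup.inv_mem _ (Subgroup.mul_mem _ (Subgroup.mul_mem _ (Subgroup.mul_mem _ hm hm)
    (Subgroup.mul_mem _ hm hm)) (Subgroup.mul_mem _ hm hm))

/-- The graph is not in a minimal Cayley graph. -/
theorem main (hS : Ind S)
    (h : Cfg S a2 a3 b2 b3 p q w e22 e23 e32 e33 p2 p3 q2 q3 pw qw) : False := by
  obtain ⟨n1, n2, n3, n4, n5, n6, n7⟩ := h.nab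
  obtain ⟨h1, h2, h3, h4, h5, h6, h7, h8, h9, h10⟩ := h.mem
  rcases k23 hS h1 h3 h5 h2 h4 h6 h.r22.symm h.r32.symm h.rp2.symm h.r23.symm h.r33.symm
    h.rp3.symm with ⟨x1, x2, x3⟩ | ⟨x1, x2, x3⟩
  · rcases k23 hS h1 h2 h7 h3 h4 h8 h.r22 h.r23 h.rq2.symm h.r32 h.r33 h.rq3.symm with
      ⟨y1, y2, y3⟩ | ⟨y1, y2, y3⟩
    · subst x1 x2 x3 y1 y3
      exact caseA hS h
    · subst x1 x2 x3
      rcases y3 with ⟨y3, y4⟩ | ⟨y3, y4⟩
      · subst y3
        exact three h.r22 h.r23 h.rq2.symm n2 n5 n6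
      · subst y3 y4
        exact caseB hS h y1
  · rcases k23 hS h1 h2 h7 h3 h4 h8 h.r22 h.r23 h.rq2.symm h.r32 h.r33 h.rq3.symm with
      ⟨y1, y2, y3⟩ | ⟨y1, y2, y3⟩
    · subst y1 y2 y3
      rcases x3 with ⟨x3, x4⟩ | ⟨x3, x4⟩
      · subst x3
        exact three h.r22.symm h.r32.symm h.rp2.symm n1 n3 n4
      · subst x3 x4
        exact caseB hS h.swap x1
    · have z1 : e32 = e23 ∧ e33 = e22 := by grind
      obtain ⟨rfl, rfl⟩ := z1
      rcases x3 with ⟨rfl, rfl⟩ | ⟨rfl, rfl⟩ <;> rcases y3 with ⟨rfl, rfl⟩ | ⟨rfl, rfl⟩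
      · exact caseC' hS h x1
      · exact caseC' hS h.swapB x1.symm
      · exact caseC' hS h.swapA x1.symm
      · exact caseC' hS h.swapA.swapB x1

end Pool.Agent.Lib.P42fc32
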