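import Mathlib

/-!
# The complete bipartite graph on `3 + 3` vertices with one edge subdivided

This graph (7 vertices, 10 edges) is not a subgraph of a minimal Cayley graph. Its vertices are called
`a2 a3 b2 b3 p q w`; the edges are `ai bj`, `p bj`, `q ai`, `p w`, `q w`.

A colour of an edge `x y` is a generator `s` with `y = x s` or `y = x s⁻¹`.
-/

set_option autoImplicit false

namespace Pool.Agent.Lib.P42fc32

variable {G : Type*} [Group G]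

/-- `y` is `x s` or `x s⁻¹` -/
def Rl (s x y : G) : Prop := y = x * s ∨ y = x * s⁻¹

/-- `x` and `y` differ by an element of the group generated by `S` without `a` -/
def Ls (S : Set G) (a x y : G) : Prop := x⁻¹ * y ∈ Subgroup.closure (S \ {a})

theorem Rl.symm {s x y : G} (h : Rl s x y) : Rl s y x := by
  rcases h with h | h
  · right; rw [h]; group
  · left; rw [h]; group

theorem Ls.symm {S : Set G} {a x y : G} (h : Ls S a x y) : Ls S a y x := by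
  have h1 := (Subgroup.closure (S \ {a})).inv_mem h
  have h2 : (x⁻¹ * y)⁻¹ = y⁻¹ * x := by group
  rw [h2] at h1
  exact h1

theorem Ls.trans {S : Set G} {a x y z : G} (h : Ls S a x y) (h' : Ls S a y z) : Ls S a x z := by
  have h1 := (Subgroup.closure (S \ {a})).mul_mem h h'
  have h2 : (x⁻¹ * y) * (y⁻¹ * z) = x⁻¹ * z := by group
  rw [h2] at h1
  exact h1

/-- a group element equal to a generator or its inverse -/
def Pm (s t : G) : Prop := t = s ∨ t = s⁻¹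

theorem Pm.inv {s t : G} (h : Pm s t) : Pm s t⁻¹ := by
  rcases h with h | h
  · right; rw [h]
  · left; rw [h, inv_inv]

theorem Pm.mem {S : Set G} {a b r : G} (hb : b ∈ S) (hne : b ≠ a) (h : Pm b r) :
    r ∈ Subgroup.closure (S \ {a}) := by
  have h1 : b ∈ Subgroup.closure (S \ {a}) := Subgroup.subset_closure ⟨hb, hne⟩
  rcases h with h | h
  · rw [h]; exact h1
  · rw [h]; exact (Subgroup.closure (S \ {a})).inv_mem h1

/-- `S` is independent: no element of `S` lies in the group generated by the others -/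
def Ind (S : Set G) : Prop := ∀ a ∈ S, a ∉ Subgroup.closure (S \ {a})

theorem Ind.pm {S : Set G} (hS : Ind S) {a t : G} (ha : a ∈ S) (h : Pm a t)
    (hm : t ∈ Subgroup.closure (S \ {a})) : False := by
  rcases h with h | h
  · rw [h] at hm; exact hS a ha hm
  · have h1 := (Subgroup.closure (S \ {a})).inv_mem hm
    rw [h, inv_inv] at h1
    exact hS a ha h1

theorem Rl.ls {S : Set G} {a b x y : G} (hb : b ∈ S) (hne : b ≠ a) (h : Rl b x y) :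
    Ls S a x y := by
  unfold Ls
  rcases h with h | h
  · have h2 : x⁻¹ * y = b := by rw [h]; group
    rw [h2]
    exact Pm.mem hb hne (Or.inl rfl)
  · have h2 : x⁻¹ * y = b⁻¹ := by rw [h]; group
    rw [h2]
    exact Pm.mem hb hne (Or.inr rfl)

theorem Rl.not_ls {S : Set G} (hS : Ind S) {a x y : G} (ha : a ∈ S) (h : Rl a x y) :
    ¬ Ls S a x y := by
  intro hl
  unfold Ls at hl
  rcases h with h | h
  · have h2 : x⁻¹ * y = a := by rw [h]; group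
    rw [h2] at hl
    exact hS.pm ha (Or.inl rfl) hl
  · have h2 : x⁻¹ * y = a⁻¹ := by rw [h]; group
    rw [h2] at hl
    exact hS.pm ha (Or.inr rfl) hl

/-- no lonely colour on a 4-cycle -/
theorem four' {S : Set G} (hS : Ind S) {a b c d x y z t : G} (ha : a ∈ S) (hb : b ∈ S) (hc : c ∈ S)
    (hd : d ∈ S) (h1 : Rl a x y) (h2 : Rl b y z) (h3 : Rl c z t) (h4 : Rl d t x) :
    b = a ∨ c = a ∨ d = a := by
  by_contra h
  push Not at h
  obtain ⟨e1, e2, e3⟩ := h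
  exact h1.not_ls hS ha ((h2.ls hb e1).trans ((h3.ls hc e2).trans (h4.ls hd e3))).symm

/-- the colours of a 4-cycle come in pairs -/
theorem four {S : Set G} (hS : Ind S) {a b c d x y z t : G} (ha : a ∈ S) (hb : b ∈ S) (hc : c ∈ S)
    (hd : d ∈ S) (h1 : Rl a x y) (h2 : Rl b y z) (h3 : Rl c z t) (h4 : Rl d t x) :
    (a = b ∧ c = d) ∨ (a = c ∧ b = d) ∨ (a = d ∧ b = c) := by
  have e1 := four' hS ha hb hc hd h1 h2 h3 h4
  have e2 := four' hS hb hc hd ha h2 h3 h4 h1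
  have e3 := four' hS hc hd ha hb h3 h4 h1 h2
  have e4 := four' hS hd ha hb hc h4 h1 h2 h3
  grind

/-- no lonely colour on a 5-cycle -/
theorem five {S : Set G} (hS : Ind S) {a b c d e x y z t u : G} (ha : a ∈ S) (hb : b ∈ S)
    (hc : c ∈ S) (hd : d ∈ S) (he : e ∈ S) (h1 : Rl a x y) (h2 : Rl b y z) (h3 : Rl c z t)
    (h4 : Rl d t u) (h5 : Rl e u x) : b = a ∨ c = a ∨ d = a ∨ e = a := by
  by_contra h
  push Not at h
  obtain ⟨e1, e2, e3, e4⟩ := h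
  exact h1.not_ls hS ha ((h2.ls hb e1).trans ((h3.ls hc e2).trans ((h4.ls hd e3).trans
    (h5.ls he e4)))).symm

/-- at most two edges of a vertex have the same colour -/
theorem three {s x y z t : G} (h1 : Rl s x y) (h2 : Rl s x z) (h3 : Rl s x t) (n1 : y ≠ z)
    (n2 : y ≠ t) (n3 : z ≠ t) : False := by
  rcases h1 with h1 | h1 <;> rcases h2 with h2 | h2 <;> rcases h3 with h3 | h3 <;> simp_all

/-- a path of two edges of the same colour is straight -/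
theorem turn {s x y z : G} (h1 : Rl s x y) (h2 : Rl s y z) (hne : x ≠ z) :
    ∃ t, Pm s t ∧ y = x * t ∧ z = y * t := by
  rcases h1 with h1 | h1 <;> rcases h2 with h2 | h2
  · exact ⟨s, Or.inl rfl, h1, h2⟩
  · exact absurd (by rw [h2, h1]; group) hne
  · exact absurd (by rw [h2, h1]; group) hne
  · exact ⟨s⁻¹, Or.inr rfl, h1, h2⟩

theorem Rl.pm {s x y : G} (h : Rl s x y) : ∃ t, Pm s t ∧ y = x * t := by
  rcases h with h | h
  · exact ⟨s, Or.inl rfl, h⟩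
  · exact ⟨s⁻¹, Or.inr rfl, h⟩

theorem Pm.cases {s t r : G} (h1 : Pm s t) (h2 : Pm s r) : r = t ∨ r = t⁻¹ := by
  rcases h1 with h1 | h1 <;> rcases h2 with h2 | h2
  · left; rw [h1, h2]
  · right; rw [h1, h2]
  · right; rw [h1, h2, inv_inv]
  · left; rw [h1, h2]

/-- The graph with coloured edges in a Cayley graph. -/
structure Cfg (S : Set G) (a2 a3 b2 b3 p q w e22 e23 e32 e33 p2 p3 q2 q3 pw qw : G) : Prop where
  nab : a2 ≠ a3 ∧ b2 ≠ b3 ∧ a2 ≠ p ∧ a3 ≠ p ∧ b2 ≠ q ∧ b3 ≠ q ∧ p ≠ q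
  nw : a2 ≠ w ∧ a3 ≠ w ∧ b2 ≠ w ∧ b3 ≠ w
  nadj : a2 ≠ q ∧ a3 ≠ q ∧ b2 ≠ p ∧ b3 ≠ p ∧ q ≠ w ∧ p ≠ w
  mem : e22 ∈ S ∧ e23 ∈ S ∧ e32 ∈ S ∧ e33 ∈ S ∧ p2 ∈ S ∧ p3 ∈ S ∧ q2 ∈ S ∧ q3 ∈ S ∧ pw ∈ S ∧ qw ∈ S
  r22 : Rl e22 a2 b2
  r23 : Rl e23 a2 b3
  r32 : Rl e32 a3 b2
  r33 : Rl e33 a3 b3
  rp2 : Rl p2 p b2
  rp3 : Rl p3 p b3
  rq2 : Rl q2 q a2
  rq3 : Rl q3 q a3
  rpw : Rl pw p w
  rqw : Rl qw q w

section cfg

variable {S : Set G} {a2 a3 b2 b3 p q w e22 e23 e32 e33 p2 p3 q2 q3 pw qw : G}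

theorem Cfg.swapA (h : Cfg S a2 a3 b2 b3 p q w e22 e23 e32 e33 p2 p3 q2 q3 pw qw) :
    Cfg S a3 a2 b2 b3 p q w e32 e33 e22 e23 p2 p3 q3 q2 pw qw where
  nab := ⟨h.nab.1.symm, h.nab.2.1, h.nab.2.2.2.1, h.nab.2.2.1, h.nab.2.2.2.2.1,
    h.nab.2.2.2.2.2.1, h.nab.2.2.2.2.2.2⟩
  nw := ⟨h.nw.2.1, h.nw.1, h.nw.2.2.1, h.nw.2.2.2⟩
  nadj := ⟨h.nadj.2.1, h.nadj.1, h.nadj.2.2⟩
  mem := by have := h.mem; tauto
  r22 := h.r32
  r23 := h.r33
  r32 := h.r22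
  r33 := h.r23
  rp2 := h.rp2
  rp3 := h.rp3
  rq2 := h.rq3
  rq3 := h.rq2
  rpw := h.rpw
  rqw := h.rqw

theorem Cfg.swapB (h : Cfg S a2 a3 b2 b3 p q w e22 e23 e32 e33 p2 p3 q2 q3 pw qw) :
    Cfg S a2 a3 b3 b2 p q w e23 e22 e33 e32 p3 p2 q2 q3 pw qw where
  nab := ⟨h.nab.1, h.nab.2.1.symm, h.nab.2.2.1, h.nab.2.2.2.1, h.nab.2.2.2.2.2.1,
    h.nab.2.2.2.2.1, h.nab.2.2.2.2.2.2⟩
  nw := ⟨h.nw.1, h.nw.2.1, h.nw.2.2.2, h.nw.2.2.1⟩
  nadj := by have := h.nadj; tauto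
  mem := by have := h.mem; tauto
  r22 := h.r23
  r23 := h.r22
  r32 := h.r33
  r33 := h.r32
  rp2 := h.rp3
  rp3 := h.rp2
  rq2 := h.rq2
  rq3 := h.rq3
  rpw := h.rpw
  rqw := h.rqw

theorem Cfg.swap (h : Cfg S a2 a3 b2 b3 p q w e22 e23 e32 e33 p2 p3 q2 q3 pw qw) :
    Cfg S b2 b3 a2 a3 q p w e22 e32 e23 e33 q2 q3 p2 p3 qw pw where
  nab := ⟨h.nab.2.1, h.nab.1, h.nab.2.2.2.2.1, h.nab.2.2.2.2.2.1, h.nab.2.2.1,
    h.nab.2.2.2.1, h.nab.2.2.2.2.2.2.symm⟩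
  nw := ⟨h.nw.2.2.1, h.nw.2.2.2, h.nw.1, h.nw.2.1⟩
  nadj := by have := h.nadj; tauto
  mem := by have := h.mem; tauto
  r22 := h.r22.symm
  r23 := h.r32.symm
  r32 := h.r23.symm
  r33 := h.r33.symm
  rp2 := h.rq2
  rp3 := h.rq3
  rq2 := h.rp2
  rq3 := h.rp3
  rpw := h.rqw
  rqw := h.rpw

end cfg

/-- The colours of `K_{2,3}` on `u, v | x, y, z`. -/
theorem k23 {S : Set G} (hS : Ind S) {u v x y z U1 U2 U3 V1 V2 V3 : G} (mU1 : U1 ∈ S) (mU2 : U2 ∈ S)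
    (mU3 : U3 ∈ S) (mV1 : V1 ∈ S) (mV2 : V2 ∈ S) (mV3 : V3 ∈ S) (hU1 : Rl U1 u x) (hU2 : Rl U2 u y)
    (hU3 : Rl U3 u z) (hV1 : Rl V1 v x) (hV2 : Rl V2 v y) (hV3 : Rl V3 v z) :
    (U1 = V1 ∧ U2 = V2 ∧ U3 = V3) ∨
      (U1 ≠ V1 ∧ ((U2 = U1 ∧ V2 = V1) ∨ (U2 = V1 ∧ V2 = U1)) ∧
        ((U3 = U1 ∧ V3 = V1) ∨ (U3 = V1 ∧ V3 = U1))) := by
  have c1 := four hS mU1 mV1 mV2 mU2 hU1 hV1.symm hV2 hU2.symm
  have c2 := four hS mU1 mV1 mV3 mU3 hU1 hV1.symm hV3 hU3.symm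
  have c3 := four hS mU2 mV2 mV3 mU3 hU2 hV2.symm hV3 hU3.symm
  grind

end Pool.Agent.Lib.P42fc32
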